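import Mathlib
import Pool.Agent.MP_b1b11b_co.Top

/-!
The Erdos-Purdy-Straus area ratio bound holds for every n at least 6.
-/

namespace Pool.Agent.Results.MP_b1b11b_co.NoExceptional

open Pool.Agent.MP_b1b11b_co

/-- Area of the triangle with vertices `(a0, a1)`, `(b0, b1)`, `(c0, c1)`. -/
noncomputable def area (a0 a1 b0 b1 c0 c1 : ℝ) : ℝ :=
  |(b0 - a0) * (c1 - a1) - (b1 - a1) * (c0 - a0)| / 2

/-- The set of areas of triangles spanned by three distinct points of `X`. -/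
def areas (X : Finset (EuclideanSpace ℝ (Fin 2))) : Set ℝ :=
  {t | ∃ A ∈ X, ∃ B ∈ X, ∃ C ∈ X, A ≠ B ∧ A ≠ C ∧ B ≠ C ∧
    t = area (A 0) (A 1) (B 0) (B 1) (C 0) (C 1)}

lemma areas_finite (X : Finset (EuclideanSpace ℝ (Fin 2))) : (areas X).Finite := by
  refine Set.Finite.subset (Set.Finite.image (fun p : _ × _ × _ => |det (co p.1) (co p.2.1) (co p.2.2)| / 2)
    (X.finite_toSet.prod (X.finite_toSet.prod X.finite_toSet))) ?_
  rintro t ⟨A, hA, B, hB, C, hC, -, -, -, rfl⟩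
  exact ⟨(A, B, C), ⟨hA, hB, hC⟩, rfl⟩

/-- No `n ≥ 6` is exceptional. -/
theorem result (X : Finset (EuclideanSpace ℝ (Fin 2))) (hn : 6 ≤ X.card)
    (hX : ¬ Collinear ℝ (X : Set (EuclideanSpace ℝ (Fin 2)))) :
    ∃ a b : ℝ, IsGreatest (areas X) a ∧ IsLeast {t ∈ areas X | 0 < t} b ∧
      ((⌈(X.card : ℝ) / 2⌉ : ℤ) : ℝ) - 1 ≤ a / b := by
  classical
  have mem : ∀ A ∈ X, ∀ B ∈ X, ∀ C ∈ X, det (co A) (co B) (co C) ≠ 0 →
      |det (co A) (co B) (co C)| / 2 ∈ {t ∈ areas X | 0 < t} := by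
    intro A hA B hB C hC h
    obtain ⟨h1, h2, h3⟩ := distinct_of_det h
    refine ⟨⟨A, hA, B, hB, C, hC, fun e => h1 (congrArg co e), fun e => h2 (congrArg co e),
      fun e => h3 (congrArg co e), rfl⟩, ?_⟩
    have := abs_pos.2 h
    linarith
  obtain ⟨A0, hA0, B0, hB0, C0, hC0, h0⟩ := exists_det hX
  have hm0 := mem A0 hA0 B0 hB0 C0 hC0 h0
  have hf := areas_finite X
  obtain ⟨a, ha, hamax⟩ := Set.exists_max_image (areas X) id hf ⟨_, hm0.1⟩
  obtain ⟨b, hb, hbmin⟩ := Set.exists_min_image {t ∈ areas X | 0 < t} id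
    (hf.subset fun t ht => ht.1) ⟨_, hm0⟩
  refine ⟨a, b, ⟨ha, fun t ht => hamax t ht⟩, ⟨hb, fun t ht => hbmin t ht⟩, ?_⟩
  have hbpos : 0 < b := hb.2
  have hapos : 0 < a := lt_of_lt_of_le hm0.2 (hamax _ hm0.1)
  rw [ceil_half _ (by omega), le_div_iff₀ hbpos]
  by_contra hcon
  push Not at hcon
  have hcard : (X.image co).card = X.card := Finset.card_image_of_injective _ co_inj
  refine core_all (Y := X.image co) (d := 2 * a) (by omega) (by linarith) ?_ ?_ ?_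
  · obtain ⟨A, hA, B, hB, C, hC, -, -, -, h⟩ := ha
    refine ⟨co A, Finset.mem_image_of_mem _ hA, co B, Finset.mem_image_of_mem _ hB, co C,
      Finset.mem_image_of_mem _ hC, ?_⟩
    have e : a = |det (co A) (co B) (co C)| / 2 := h
    rw [e]
    ring
  · intro P hP Q hQ R hR
    obtain ⟨A, hA, rfl⟩ := Finset.mem_image.1 hP
    obtain ⟨B, hB, rfl⟩ := Finset.mem_image.1 hQ
    obtain ⟨C, hC, rfl⟩ := Finset.mem_image.1 hR
    by_cases h : det (co A) (co B) (co C) = 0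
    · rw [h, abs_zero]
      linarith
    · have := hamax _ (mem A hA B hB C hC h).1
      simp only [id] at this
      linarith
  · intro P hP Q hQ R hR h
    obtain ⟨A, hA, rfl⟩ := Finset.mem_image.1 hP
    obtain ⟨B, hB, rfl⟩ := Finset.mem_image.1 hQ
    obtain ⟨C, hC, rfl⟩ := Finset.mem_image.1 hR
    have h1 := hbmin _ (mem A hA B hB C hC h)
    simp only [id] at h1
    rw [hcard]
    have hk : (0 : ℝ) ≤ (((X.card - 1) / 2 : ℕ) : ℝ) := Nat.cast_nonneg _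
    nlinarith [mul_le_mul_of_nonneg_left h1 hk]

end Pool.Agent.Results.MP_b1b11b_co.NoExceptional
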